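import Mathlib

set_option autoImplicit false

/-!
The recursion `x_{n+1} = (α_n + x_n) / x_{n-1}` with positive periodic coefficients: for every
`p ≥ 2` different from `2`, `3`, `6` there is a sequence of positive coefficients with least
period `p` and an unbounded positive solution (`bad_of_ne`).

Idea.  With `T c (u, v) = (v, (c + v) / u)` one has `T 1 ^ 5 = id`, so that a word of coefficients
may be padded by five ones; it is enough to treat words of length `4`, `5`, `7`, `8`, `11`.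
If the product of the coefficients is `1`, then in the coordinates `(B, t)`, `B = x_{n-1}`,
`t = 1 / x_n`, near `t = 0` the map over `5 p` steps is `(B, t) ↦ (B + O(t), t * r(B) + O(t^2))`,
and `r(B) < 1` for a suitable `B`, so that `x_n` grows geometrically.
-/

namespace Pool.Agent.H24.Lyness

/-- `x` is a positive solution of the recursion with coefficients `α`.  The index is shifted by
one: `x n` stands for the term with index `n - 1` of the source. -/
def IsPositiveSolution (α x : ℕ → ℝ) : Prop :=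
  0 < x 0 ∧ 0 < x 1 ∧ ∀ n, x (n + 2) = (α n + x (n + 1)) / x n

/-- `p` is the least positive integer with `α (n + p) = α n` for all `n`. -/
def HasLeastPeriod (α : ℕ → ℝ) (p : ℕ) : Prop :=
  IsLeast {q : ℕ | 0 < q ∧ ∀ n, α (n + q) = α n} p

/-! ### The state map -/

/-- The state map. -/
noncomputable def T (c : ℝ) (s : ℝ × ℝ) : ℝ × ℝ := (s.2, (c + s.2) / s.1)

/-- The orbit of states. -/
noncomputable def orb (α : ℕ → ℝ) (s : ℝ × ℝ) : ℕ → ℝ × ℝ
  | 0 => s
  | n + 1 => T (α n) (orb α s n)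

/-- Both coordinates positive. -/
def Pos (s : ℝ × ℝ) : Prop := 0 < s.1 ∧ 0 < s.2

lemma T_pos {c : ℝ} (hc : 0 ≤ c) {s : ℝ × ℝ} (hs : Pos s) : Pos (T c s) := by
  obtain ⟨h1, h2⟩ := hs
  exact ⟨h2, by simp only [T]; positivity⟩

lemma orb_pos {α : ℕ → ℝ} (hα : ∀ n, 0 ≤ α n) {s : ℝ × ℝ} (hs : Pos s) (n : ℕ) :
    Pos (orb α s n) := by
  induction n with
  | zero => exact hs
  | succ n ih => exact T_pos (hα n) ih

lemma orb_solution {α : ℕ → ℝ} {s : ℝ × ℝ} (hs : Pos s) :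
    IsPositiveSolution α (fun n => (orb α s n).1) := by
  refine ⟨hs.1, ?_, ?_⟩
  · simpa [orb, T] using hs.2
  · intro n
    simp [orb, T]

lemma orb_add {α : ℕ → ℝ} {p : ℕ} (hp : ∀ n, α (n + p) = α n) (s : ℝ × ℝ) (k i : ℕ) :
    orb α s (k * p + i) = orb α (orb α s (k * p)) i := by
  have hk : ∀ k n : ℕ, α (k * p + n) = α n := by
    intro k
    induction k with
    | zero => intro n; simp
    | succ k ih =>
      intro n
      have : (k + 1) * p + n = (k * p + n) + p := by ring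
      rw [this, hp, ih]
  induction i with
  | zero => simp [orb]
  | succ i ih =>
    rw [← add_assoc]
    simp only [orb]
    rw [ih, hk]

lemma not_bdd_of_states {α : ℕ → ℝ} {s : ℝ × ℝ} (hs : Pos s)
    (h : ∀ B : ℝ, ∃ n, B < (orb α s n).1) :
    ∃ x : ℕ → ℝ, IsPositiveSolution α x ∧ ¬ BddAbove (Set.range x) := by
  refine ⟨_, orb_solution hs, ?_⟩
  rintro ⟨B, hB⟩
  obtain ⟨n, hn⟩ := h B
  exact absurd (hB ⟨n, rfl⟩) (not_le.mpr hn)

lemma T_one_five {s : ℝ × ℝ} (hs : Pos s) : (T 1)^[5] s = s := by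
  obtain ⟨u, v⟩ := s
  obtain ⟨hu, hv⟩ := hs
  simp only at hu hv
  have hu' : u ≠ 0 := hu.ne'
  have hv' : v ≠ 0 := hv.ne'
  have h1 : (1 + v) ≠ 0 := by positivity
  have h2 : (1 + u) ≠ 0 := by positivity
  have h3 : (u + v + 1) ≠ 0 := by positivity
  have e1 : T 1 (u, v) = (v, (1 + v) / u) := rfl
  have e2 : T 1 (v, (1 + v) / u) = ((1 + v) / u, (u + v + 1) / (u * v)) := by
    simp only [T]; congr 1; field_simp; ring
  have e3 : T 1 ((1 + v) / u, (u + v + 1) / (u * v)) = ((u + v + 1) / (u * v), (1 + u) / v) := by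
    simp only [T]; congr 1; field_simp; ring
  have e4 : T 1 ((u + v + 1) / (u * v), (1 + u) / v) = ((1 + u) / v, u) := by
    simp only [T]; congr 1; field_simp; ring
  have e5 : T 1 ((1 + u) / v, u) = (u, v) := by
    simp only [T]; congr 1; field_simp
  simp only [Function.iterate_succ, Function.iterate_zero, Function.comp_apply, id_eq]
  rw [e1, e2, e3, e4, e5]

lemma iter_pos {c : ℝ} (hc : 0 ≤ c) {s : ℝ × ℝ} (hs : Pos s) (n : ℕ) : Pos ((T c)^[n] s) := by
  induction n with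
  | zero => exact hs
  | succ n ih => rw [Function.iterate_succ_apply']; exact T_pos hc ih

lemma iter_one_mul {s : ℝ × ℝ} (hs : Pos s) (a : ℕ) : (T 1)^[5 * a] s = s := by
  induction a with
  | zero => simp
  | succ a ih =>
    have : 5 * (a + 1) = 5 + 5 * a := by ring
    rw [this, Function.iterate_add_apply, ih, T_one_five hs]

/-! ### Escape to infinity: five steps near infinity -/

/-- Auxiliary denominators. -/
def D1 (a0 : ℝ) (q : ℝ × ℝ) : ℝ := 1 + a0 * q.2

/-- Auxiliary denominators. -/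
def D2 (a0 a1 : ℝ) (q : ℝ × ℝ) : ℝ := 1 + a0 * q.2 + a1 * q.1 * q.2

/-- Auxiliary numerator. -/
def D3 (a0 a1 a2 : ℝ) (q : ℝ × ℝ) : ℝ := a2 * q.1 + (1 + a0 * q.2 + a1 * q.1 * q.2)

/-- First coordinate after five steps. -/
noncomputable def be (a0 a1 a2 a3 : ℝ) (q : ℝ × ℝ) : ℝ :=
  q.1 * (a3 * D1 a0 q + q.2 * D3 a0 a1 a2 q) / (D1 a0 q * D2 a0 a1 q)

/-- Factor of the inverse of the second coordinate after five steps. -/
noncomputable def ta (a0 a1 a2 a3 a4 : ℝ) (q : ℝ × ℝ) : ℝ :=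
  D3 a0 a1 a2 q / D1 a0 q / (a4 + be a0 a1 a2 a3 q)

/-- Remainder of the first coordinate. -/
noncomputable def rh (a0 a1 a2 a3 : ℝ) (q : ℝ × ℝ) : ℝ :=
  q.1 * (D3 a0 a1 a2 q - a3 * D1 a0 q * (a0 + a1 * q.1)) / (D1 a0 q * D2 a0 a1 q)

lemma D1_pos {a0 : ℝ} (h0 : 0 < a0) {q : ℝ × ℝ} (h2 : 0 ≤ q.2) : 0 < D1 a0 q := by
  unfold D1; positivity

lemma D2_pos {a0 a1 : ℝ} (h0 : 0 < a0) (h1 : 0 < a1) {q : ℝ × ℝ} (hq : 0 < q.1)
    (h2 : 0 ≤ q.2) : 0 < D2 a0 a1 q := by
  unfold D2; positivity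

lemma D3_pos {a0 a1 a2 : ℝ} (h0 : 0 < a0) (h1 : 0 < a1) (ha : 0 < a2) {q : ℝ × ℝ}
    (hq : 0 < q.1) (h2 : 0 ≤ q.2) : 0 < D3 a0 a1 a2 q := by
  unfold D3; positivity

lemma be_pos {a0 a1 a2 a3 : ℝ} (h0 : 0 < a0) (h1 : 0 < a1) (ha : 0 < a2) (hb : 0 < a3)
    {q : ℝ × ℝ} (hq : 0 < q.1) (h2 : 0 ≤ q.2) : 0 < be a0 a1 a2 a3 q := by
  have d1 := D1_pos h0 h2
  have d2 := D2_pos h0 h1 hq h2
  have d3 := D3_pos h0 h1 ha hq h2
  unfold be
  have : 0 < a3 * D1 a0 q + q.2 * D3 a0 a1 a2 q := by positivity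
  positivity

lemma ta_pos {a0 a1 a2 a3 a4 : ℝ} (h0 : 0 < a0) (h1 : 0 < a1) (ha : 0 < a2) (hb : 0 < a3)
    (hc : 0 < a4) {q : ℝ × ℝ} (hq : 0 < q.1) (h2 : 0 ≤ q.2) : 0 < ta a0 a1 a2 a3 a4 q := by
  have d1 := D1_pos h0 h2
  have d3 := D3_pos h0 h1 ha hq h2
  have d4 := be_pos h0 h1 ha hb hq h2
  unfold ta
  positivity

lemma be_eq {a0 a1 a2 a3 : ℝ} (h0 : 0 < a0) (h1 : 0 < a1) {q : ℝ × ℝ} (hq : 0 < q.1)
    (h2 : 0 ≤ q.2) : be a0 a1 a2 a3 q = a3 * q.1 + q.2 * rh a0 a1 a2 a3 q := by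
  have d1 := (D1_pos h0 h2).ne'
  have d2 := (D2_pos h0 h1 hq h2).ne'
  unfold be rh
  field_simp
  unfold D1 D2 D3
  ring

lemma block_eq {a0 a1 a2 a3 a4 : ℝ} (h0 : 0 < a0) (h1 : 0 < a1) (ha : 0 < a2) (hb : 0 < a3)
    (hc : 0 < a4) {B t : ℝ} (hB : 0 < B) (ht : 0 < t) :
    T a4 (T a3 (T a2 (T a1 (T a0 (B, 1 / t))))) =
      (be a0 a1 a2 a3 (B, t), 1 / (t * ta a0 a1 a2 a3 a4 (B, t))) := by
  have d1 : D1 a0 (B, t) ≠ 0 := (D1_pos h0 (q := (B, t)) ht.le).ne'
  have d2 : D2 a0 a1 (B, t) ≠ 0 := (D2_pos h0 h1 (q := (B, t)) hB ht.le).ne'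
  have d3 : D3 a0 a1 a2 (B, t) ≠ 0 := (D3_pos h0 h1 ha (q := (B, t)) hB ht.le).ne'
  have d4 : a4 + be a0 a1 a2 a3 (B, t) ≠ 0 := by
    have := be_pos h0 h1 ha hb (q := (B, t)) hB ht.le
    positivity
  have e0 : T a0 (B, 1 / t) = (1 / t, D1 a0 (B, t) / (B * t)) := by
    simp only [T, D1]; congr 1; field_simp; ring
  have e1 : T a1 (1 / t, D1 a0 (B, t) / (B * t)) =
      (D1 a0 (B, t) / (B * t), D2 a0 a1 (B, t) / B) := by
    simp only [T, D1, D2]; congr 1; field_simp; ring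
  have e2 : T a2 (D1 a0 (B, t) / (B * t), D2 a0 a1 (B, t) / B) =
      (D2 a0 a1 (B, t) / B, t * D3 a0 a1 a2 (B, t) / D1 a0 (B, t)) := by
    simp only [T]
    congr 1
    field_simp
    simp only [D2, D3]
  have e3 : T a3 (D2 a0 a1 (B, t) / B, t * D3 a0 a1 a2 (B, t) / D1 a0 (B, t)) =
      (t * D3 a0 a1 a2 (B, t) / D1 a0 (B, t), be a0 a1 a2 a3 (B, t)) := by
    simp only [T, be]
    congr 1
    field_simp
  have e4 : T a4 (t * D3 a0 a1 a2 (B, t) / D1 a0 (B, t), be a0 a1 a2 a3 (B, t)) =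
      (be a0 a1 a2 a3 (B, t), 1 / (t * ta a0 a1 a2 a3 a4 (B, t))) := by
    simp only [T, ta]
    congr 1
    field_simp
  rw [e0, e1, e2, e3, e4]

/-! ### Continuity at the limit point -/

lemma cont_D1 (a0 : ℝ) : Continuous (D1 a0) := by unfold D1; fun_prop

lemma cont_D2 (a0 a1 : ℝ) : Continuous (D2 a0 a1) := by unfold D2; fun_prop

lemma cont_D3 (a0 a1 a2 : ℝ) : Continuous (D3 a0 a1 a2) := by unfold D3; fun_prop

lemma cont_be {a0 a1 a2 a3 b : ℝ} : ContinuousAt (be a0 a1 a2 a3) (b, 0) := by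
  unfold be
  refine ContinuousAt.div ?_ ?_ ?_
  · have h1 := cont_D1 a0
    have h3 := cont_D3 a0 a1 a2
    exact (Continuous.mul (by fun_prop) (by fun_prop)).continuousAt
  · exact ((cont_D1 a0).mul (cont_D2 a0 a1)).continuousAt
  · simp [D1, D2]

lemma cont_rh {a0 a1 a2 a3 b : ℝ} : ContinuousAt (rh a0 a1 a2 a3) (b, 0) := by
  unfold rh
  refine ContinuousAt.div ?_ ?_ ?_
  · have h1 := cont_D1 a0
    have h3 := cont_D3 a0 a1 a2
    exact (Continuous.mul (by fun_prop) (by fun_prop)).continuousAt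
  · exact ((cont_D1 a0).mul (cont_D2 a0 a1)).continuousAt
  · simp [D1, D2]

lemma be_zero (a0 a1 a2 a3 b : ℝ) : be a0 a1 a2 a3 (b, 0) = a3 * b := by
  simp [be, D1, D2]; ring

lemma ta_zero (a0 a1 a2 a3 a4 b : ℝ) :
    ta a0 a1 a2 a3 a4 (b, 0) = (1 + a2 * b) / (a4 + a3 * b) := by
  unfold ta
  rw [be_zero]
  simp [D1, D3]; ring

lemma cont_ta {a0 a1 a2 a3 a4 b : ℝ} (h3 : 0 < a3) (h4 : 0 < a4) (hb : 0 < b) :
    ContinuousAt (ta a0 a1 a2 a3 a4) (b, 0) := by
  unfold ta
  refine ContinuousAt.div ?_ ?_ ?_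
  · refine ContinuousAt.div (cont_D3 a0 a1 a2).continuousAt (cont_D1 a0).continuousAt ?_
    simp [D1]
  · exact continuousAt_const.add cont_be
  · rw [be_zero]; positivity

/-! ### Blocks of five steps -/

/-- Product of the coefficients with index `5 k + 3`, `k < n`. -/
def cc (w : ℕ → ℝ) : ℕ → ℝ
  | 0 => 1
  | n + 1 => w (5 * n + 3) * cc w n

/-- The limit factor after `n` blocks. -/
noncomputable def rr (w : ℕ → ℝ) (B : ℝ) : ℕ → ℝ
  | 0 => 1
  | n + 1 => rr w B n * ((1 + w (5 * n + 2) * (cc w n * B)) /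
      (w (5 * n + 4) + w (5 * n + 3) * (cc w n * B)))

lemma cc_pos {w : ℕ → ℝ} (hw : ∀ n, 0 < w n) (n : ℕ) : 0 < cc w n := by
  induction n with
  | zero => exact one_pos
  | succ n ih => exact mul_pos (hw _) ih

lemma blocks {w : ℕ → ℝ} (hw : ∀ n, 0 < w n) {B0 : ℝ} (hB0 : 0 < B0) (n : ℕ) :
    ∃ β τ ρ : ℝ × ℝ → ℝ, ContinuousAt β (B0, 0) ∧ ContinuousAt τ (B0, 0) ∧
      ContinuousAt ρ (B0, 0) ∧ β (B0, 0) = cc w n * B0 ∧ τ (B0, 0) = rr w B0 n ∧
      ∀ q : ℝ × ℝ, 0 < q.1 → 0 < q.2 → 0 < β q ∧ 0 < τ q ∧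
        orb w (q.1, 1 / q.2) (5 * n) = (β q, 1 / (q.2 * τ q)) ∧
        β q = cc w n * q.1 + q.2 * ρ q := by
  induction n with
  | zero =>
    refine ⟨fun q => q.1, fun _ => 1, fun _ => 0, continuousAt_fst, continuousAt_const,
      continuousAt_const, by simp [cc], by simp [rr], ?_⟩
    intro q h1 h2
    exact ⟨h1, one_pos, by simp [orb], by simp [cc]⟩
  | succ n ih =>
    obtain ⟨β, τ, ρ, cβ, cτ, cρ, eβ, eτ, hq⟩ := ih
    set a0 := w (5 * n) with ha0
    set a1 := w (5 * n + 1) with ha1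
    set a2 := w (5 * n + 2) with ha2
    set a3 := w (5 * n + 3) with ha3
    set a4 := w (5 * n + 4) with ha4
    have p0 : 0 < a0 := hw _
    have p1 : 0 < a1 := hw _
    have p2 : 0 < a2 := hw _
    have p3 : 0 < a3 := hw _
    have p4 : 0 < a4 := hw _
    have hb : 0 < cc w n * B0 := mul_pos (cc_pos hw n) hB0
    have cφ : ContinuousAt (fun q : ℝ × ℝ => (β q, q.2 * τ q)) (B0, 0) :=
      cβ.prodMk (continuousAt_snd.mul cτ)
    have eφ : (fun q : ℝ × ℝ => (β q, q.2 * τ q)) (B0, 0) = (cc w n * B0, 0) := by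
      simp [eβ]
    refine ⟨fun q => be a0 a1 a2 a3 (β q, q.2 * τ q),
      fun q => τ q * ta a0 a1 a2 a3 a4 (β q, q.2 * τ q),
      fun q => a3 * ρ q + τ q * rh a0 a1 a2 a3 (β q, q.2 * τ q), ?_, ?_, ?_, ?_, ?_, ?_⟩
    · exact ContinuousAt.comp_of_eq cont_be cφ eφ
    · exact cτ.mul (ContinuousAt.comp_of_eq (cont_ta p3 p4 hb) cφ eφ)
    · exact (continuousAt_const.mul cρ).add
        (cτ.mul (ContinuousAt.comp_of_eq cont_rh cφ eφ))
    · simp only [eβ, zero_mul, be_zero, cc]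
      rw [← ha3]
      ring
    · simp only [eβ, eτ, zero_mul, ta_zero, rr]
      rw [← ha2, ← ha3, ← ha4]
    · intro q h1 h2
      obtain ⟨i1, i2, i3, i4⟩ := hq q h1 h2
      have ht : 0 < q.2 * τ q := mul_pos h2 i2
      have hβ' := be_pos p0 p1 p2 p3 (q := (β q, q.2 * τ q)) i1 ht.le
      have hτ' := ta_pos p0 p1 p2 p3 p4 (q := (β q, q.2 * τ q)) i1 ht.le
      refine ⟨hβ', mul_pos i2 hτ', ?_, ?_⟩
      · have e : orb w (q.1, 1 / q.2) (5 * (n + 1)) =
            T a4 (T a3 (T a2 (T a1 (T a0 (orb w (q.1, 1 / q.2) (5 * n)))))) := rfl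
        rw [e, i3, block_eq p0 p1 p2 p3 p4 i1 ht, mul_assoc]
      · have h := be_eq (a2 := a2) (a3 := a3) p0 p1 (q := (β q, q.2 * τ q)) i1 ht.le
        simp only at h
        show be a0 a1 a2 a3 (β q, q.2 * τ q) =
          w (5 * n + 3) * cc w n * q.1 + q.2 * (a3 * ρ q + τ q * rh a0 a1 a2 a3 (β q, q.2 * τ q))
        rw [h, ← ha3, i4]
        ring

/-- The escape lemma. -/
lemma escape {w : ℕ → ℝ} (hw : ∀ n, 0 < w n) {N : ℕ} (hper : ∀ n, w (n + 5 * N) = w n)
    {B0 : ℝ} (hB0 : 0 < B0) (hc : cc w N = 1) (hr : rr w B0 N < 1) :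
    ∃ s : ℝ × ℝ, Pos s ∧ ∀ C : ℝ, ∃ k : ℕ, C < (orb w s (k * (5 * N))).2 := by
  obtain ⟨β, τ, ρ, cβ, cτ, cρ, eβ, eτ, hq⟩ := blocks hw hB0 N
  obtain ⟨θ, hθ1, hθ2⟩ := exists_between (max_lt hr one_pos)
  have hθr : rr w B0 N < θ := lt_of_le_of_lt (le_max_left _ _) hθ1
  have hθ0 : 0 < θ := lt_of_le_of_lt (le_max_right _ _) hθ1
  set K : ℝ := |ρ (B0, 0)| + 1 with hK
  have hK0 : 0 < K := by positivity
  have ev1 : ∀ᶠ q in nhds ((B0, 0) : ℝ × ℝ), τ q < θ := by
    have : τ (B0, 0) < θ := by rw [eτ]; exact hθr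
    exact cτ.eventually_lt continuousAt_const this
  have ev2 : ∀ᶠ q in nhds ((B0, 0) : ℝ × ℝ), |ρ q| < K := by
    have : |ρ (B0, 0)| < K := by rw [hK]; linarith
    exact cρ.abs.eventually_lt continuousAt_const this
  obtain ⟨δ, hδ, hball⟩ := Metric.eventually_nhds_iff.mp (ev1.and ev2)
  have h1θ : 0 < 1 - θ := by linarith
  set M : ℝ := K / (1 - θ) with hM
  have hM0 : 0 < M := by positivity
  have hMθ : K + M * θ = M := by rw [hM]; field_simp; ring
  set t0 : ℝ := δ / (2 * (M + 1)) with ht0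
  have ht0p : 0 < t0 := by positivity
  have ht0δ : t0 * (2 * (M + 1)) = δ := by rw [ht0]; field_simp
  have ht0a : t0 < δ := by nlinarith
  have ht0b : M * t0 < δ := by nlinarith
  have key : ∀ k : ℕ, ∃ B t : ℝ, 0 < B ∧ 0 < t ∧ t ≤ θ ^ k * t0 ∧ |B - B0| + M * t ≤ M * t0 ∧
      orb w (B0, 1 / t0) (k * (5 * N)) = (B, 1 / t) := by
    intro k
    induction k with
    | zero => exact ⟨B0, t0, hB0, ht0p, by simp, by simp, by simp [orb]⟩
    | succ k ih =>
      obtain ⟨B, t, hB, ht, h1, h2, h3⟩ := ih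
      have hpk : θ ^ k ≤ 1 := pow_le_one₀ hθ0.le hθ2.le
      have htt : t ≤ t0 := le_trans h1 (by nlinarith)
      have hMt : 0 < M * t := mul_pos hM0 ht
      have hd : dist ((B, t) : ℝ × ℝ) (B0, 0) < δ := by
        rw [Prod.dist_eq, max_lt_iff, Real.dist_eq, Real.dist_eq, sub_zero, abs_of_pos ht]
        exact ⟨by simp only; linarith, by linarith⟩
      obtain ⟨b1, b2⟩ := hball hd
      obtain ⟨i1, i2, i3, i4⟩ := hq (B, t) hB ht
      simp only at i3 i4
      have hρ := abs_lt.mp b2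
      refine ⟨β (B, t), t * τ (B, t), i1, mul_pos ht i2, ?_, ?_, ?_⟩
      · calc t * τ (B, t) ≤ (θ ^ k * t0) * θ := mul_le_mul h1 b1.le i2.le (by positivity)
          _ = θ ^ (k + 1) * t0 := by ring
      · have e1 : β (B, t) - B0 = (B - B0) + t * ρ (B, t) := by rw [i4, hc]; ring
        have e2 : |β (B, t) - B0| ≤ |B - B0| + t * K := by
          rw [e1]
          refine (abs_add_le _ _).trans ?_
          rw [abs_mul, abs_of_pos ht]
          have := mul_le_mul_of_nonneg_left b2.le ht.le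
          linarith
        have e3 : M * (t * τ (B, t)) ≤ M * (t * θ) := by
          have := mul_le_mul_of_nonneg_left b1.le ht.le
          exact mul_le_mul_of_nonneg_left this hM0.le
        have e4 : t * K + M * (t * θ) = M * t := by
          have : t * K + M * (t * θ) = t * (K + M * θ) := by ring
          rw [this, hMθ]; ring
        linarith
      · rw [show (k + 1) * (5 * N) = k * (5 * N) + 5 * N from by ring, orb_add hper, h3, i3]
  refine ⟨(B0, 1 / t0), ⟨hB0, by simp only; positivity⟩, ?_⟩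
  intro C
  obtain ⟨k, hk⟩ := exists_pow_lt_of_lt_one
    (show 0 < 1 / (t0 * (|C| + 1)) by positivity) hθ2
  obtain ⟨B, t, hB, ht, h1, h2, h3⟩ := key k
  refine ⟨k, ?_⟩
  rw [h3]
  simp only
  rw [lt_div_iff₀ ht]
  have h4 : t < 1 / (|C| + 1) := by
    calc t ≤ θ ^ k * t0 := h1
      _ < 1 / (t0 * (|C| + 1)) * t0 := mul_lt_mul_of_pos_right hk ht0p
      _ = 1 / (|C| + 1) := by field_simp
  have h5 : t * (|C| + 1) < 1 := by rwa [lt_div_iff₀ (by positivity)] at h4
  have h6 : C ≤ |C| := le_abs_self C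
  nlinarith

/-! ### Words with three special letters -/

/-- The `p`-periodic word with `1/8` at position `0`, `u` at position `i`, `v` at position `j`
and `1` elsewhere. -/
noncomputable def word (p i j : ℕ) (u v : ℝ) (n : ℕ) : ℝ :=
  if n % p = 0 then 1 / 8 else if n % p = i then u else if n % p = j then v else 1

lemma word_pos {p i j : ℕ} {u v : ℝ} (hu : 0 < u) (hv : 0 < v) (n : ℕ) :
    0 < word p i j u v n := by
  unfold word; split_ifs <;> positivity

lemma word_period (p i j : ℕ) (u v : ℝ) (n : ℕ) : word p i j u v (n + p) = word p i j u v n := by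
  unfold word; simp

lemma word_leastPeriod {p i j : ℕ} {u v : ℝ} (hp : 0 < p) (hu : u ≠ 1 / 8) (hv : v ≠ 1 / 8) :
    HasLeastPeriod (word p i j u v) p := by
  refine ⟨⟨hp, word_period p i j u v⟩, ?_⟩
  rintro q ⟨hq, hper⟩
  by_contra hlt
  push Not at hlt
  have h0 := hper 0
  rw [zero_add] at h0
  have e0 : word p i j u v 0 = 1 / 8 := by unfold word; simp
  rw [e0] at h0
  unfold word at h0
  rw [Nat.mod_eq_of_lt hlt] at h0
  split_ifs at h0 with g1 g2 g3
  · omega
  · exact hu h0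
  · exact hv h0
  · norm_num at h0

/-- Padding a word by `5 m` ones does not change the map over one period. -/
lemma orb_word_pad {p0 i j m : ℕ} {u v : ℝ} (hu : 0 < u) (hv : 0 < v) (hp : 0 < p0)
    (hi : i < p0) (hj : j < p0) {s : ℝ × ℝ} (hs : Pos s) :
    orb (word (p0 + 5 * m) i j u v) s (p0 + 5 * m) = orb (word p0 i j u v) s p0 := by
  have h1 : ∀ n, n ≤ p0 → orb (word (p0 + 5 * m) i j u v) s n = orb (word p0 i j u v) s n := by
    intro n
    induction n with
    | zero => intro _; rfl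
    | succ n ih =>
      intro hn
      simp only [orb]
      rw [ih (by omega)]
      congr 1
      unfold word
      rw [Nat.mod_eq_of_lt (by omega), Nat.mod_eq_of_lt (by omega)]
  have h2 : ∀ n, n ≤ 5 * m → orb (word (p0 + 5 * m) i j u v) s (p0 + n) =
      (T 1)^[n] (orb (word p0 i j u v) s p0) := by
    intro n
    induction n with
    | zero => intro _; simpa using h1 p0 le_rfl
    | succ n ih =>
      intro hn
      rw [Function.iterate_succ_apply', ← ih (by omega), ← add_assoc]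
      simp only [orb]
      congr 1
      unfold word
      rw [Nat.mod_eq_of_lt (by omega), if_neg (by omega), if_neg (by omega), if_neg (by omega)]
  rw [h2 (5 * m) le_rfl]
  exact iter_one_mul (orb_pos (fun n => (word_pos hu hv n).le) hs _) m

lemma orb_word_pad_mul {p0 i j m : ℕ} {u v : ℝ} (hu : 0 < u) (hv : 0 < v) (hp : 0 < p0)
    (hi : i < p0) (hj : j < p0) {s : ℝ × ℝ} (hs : Pos s) (k : ℕ) :
    orb (word (p0 + 5 * m) i j u v) s (k * (p0 + 5 * m)) = orb (word p0 i j u v) s (k * p0) := by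
  induction k with
  | zero => simp [orb]
  | succ k ih =>
    rw [add_mul, one_mul, orb_add (word_period _ _ _ _ _), ih, add_mul, one_mul,
      orb_add (word_period _ _ _ _ _)]
    exact orb_word_pad hu hv hp hi hj (orb_pos (fun n => (word_pos hu hv n).le) hs _)

/-- The negation of being good, by a positive word. -/
def Bad (p : ℕ) : Prop :=
  ∃ α : ℕ → ℝ, (∀ n, 0 < α n) ∧ HasLeastPeriod α p ∧
    ∃ x : ℕ → ℝ, IsPositiveSolution α x ∧ ¬ BddAbove (Set.range x)

lemma bad_of_word {p0 i j m : ℕ} {u v B0 : ℝ} (hu : 0 < u) (hv : 0 < v) (hu8 : u ≠ 1 / 8)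
    (hv8 : v ≠ 1 / 8) (hp : 0 < p0) (hi : i < p0) (hj : j < p0) (hB0 : 0 < B0)
    (hc : cc (word p0 i j u v) p0 = 1) (hr : rr (word p0 i j u v) B0 p0 < 1) :
    Bad (p0 + 5 * m) := by
  have hw := fun n => word_pos (p := p0) (i := i) (j := j) hu hv n
  have hper : ∀ n, word p0 i j u v (n + 5 * p0) = word p0 i j u v n := by
    intro n
    unfold word
    simp
  obtain ⟨s, hs, hk⟩ := escape hw hper hB0 hc hr
  refine ⟨word (p0 + 5 * m) i j u v, fun n => word_pos hu hv n,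
    word_leastPeriod (by omega) hu8 hv8, not_bdd_of_states hs ?_⟩
  intro C
  obtain ⟨k, hk⟩ := hk C
  refine ⟨k * 5 * (p0 + 5 * m) + 1, ?_⟩
  have e : (orb (word (p0 + 5 * m) i j u v) s (k * 5 * (p0 + 5 * m) + 1)).1 =
      (orb (word (p0 + 5 * m) i j u v) s (k * 5 * (p0 + 5 * m))).2 := rfl
  rw [e, orb_word_pad_mul hu hv hp hi hj hs, mul_assoc]
  exact hk

lemma bad_four (m : ℕ) : Bad (4 + 5 * m) := by
  refine bad_of_word (i := 1) (j := 2) (u := 4) (v := 2) (B0 := 1 / 4) (by norm_num)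
    (by norm_num) (by norm_num) (by norm_num) (by norm_num) (by norm_num) (by norm_num)
    (by norm_num) ?_ ?_
  · norm_num [cc, word]
  · norm_num [rr, cc, word]

lemma bad_seven (m : ℕ) : Bad (7 + 5 * m) := by
  refine bad_of_word (i := 1) (j := 2) (u := 2) (v := 4) (B0 := 1 / 8) (by norm_num)
    (by norm_num) (by norm_num) (by norm_num) (by norm_num) (by norm_num) (by norm_num)
    (by norm_num) ?_ ?_
  · norm_num [cc, word]
  · norm_num [rr, cc, word]

lemma bad_eight (m : ℕ) : Bad (8 + 5 * m) := by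
  refine bad_of_word (i := 1) (j := 3) (u := 2) (v := 4) (B0 := 1 / 2) (by norm_num)
    (by norm_num) (by norm_num) (by norm_num) (by norm_num) (by norm_num) (by norm_num)
    (by norm_num) ?_ ?_
  · norm_num [cc, word]
  · norm_num [rr, cc, word]

lemma bad_eleven (m : ℕ) : Bad (11 + 5 * m) := by
  refine bad_of_word (i := 1) (j := 6) (u := 2) (v := 4) (B0 := 1 / 4) (by norm_num)
    (by norm_num) (by norm_num) (by norm_num) (by norm_num) (by norm_num) (by norm_num)
    (by norm_num) ?_ ?_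
  · norm_num [cc, word]
  · norm_num [rr, cc, word]

/-! ### Multiples of five -/

/-- The word with `1/2` at position `0` and `1` elsewhere. -/
noncomputable def halfWord (p n : ℕ) : ℝ := if n % p = 0 then 1 / 2 else 1

lemma bad_five (m : ℕ) : Bad (5 + 5 * m) := by
  set p := 5 + 5 * m with hp
  have hpos : ∀ n, 0 < halfWord p n := by intro n; unfold halfWord; split_ifs <;> norm_num
  have hperiod : ∀ n, halfWord p (n + p) = halfWord p n := by intro n; unfold halfWord; simp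
  have hleast : HasLeastPeriod (halfWord p) p := by
    refine ⟨⟨by omega, hperiod⟩, ?_⟩
    rintro q ⟨hq, hper⟩
    by_contra hlt
    push Not at hlt
    have h0 := hper 0
    unfold halfWord at h0
    rw [zero_add, Nat.mod_eq_of_lt hlt, if_neg (by omega)] at h0
    norm_num at h0
  have hs : Pos ((1 : ℝ), (1 : ℝ)) := ⟨by norm_num, by norm_num⟩
  refine ⟨halfWord p, hpos, hleast, not_bdd_of_states hs ?_⟩
  -- the map over one period
  have hM : ∀ s : ℝ × ℝ, Pos s → orb (halfWord p) s p = (s.1 * (1 + s.2) / (1 / 2 + s.2), s.2) := by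
    intro s hs
    have h1 : ∀ n, n + 1 ≤ p → orb (halfWord p) s (n + 1) = (T 1)^[n] (T (1 / 2) s) := by
      intro n
      induction n with
      | zero => intro _; simp [orb, halfWord]
      | succ n ih =>
        intro hn
        rw [Function.iterate_succ_apply', ← ih (by omega)]
        have e : halfWord p (n + 1) = 1 := by
          unfold halfWord
          rw [Nat.mod_eq_of_lt (by omega), if_neg (by omega)]
        show T (halfWord p (n + 1)) (orb (halfWord p) s (n + 1)) = _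
        rw [e]
    have hT : Pos (T (1 / 2) s) := T_pos (by norm_num) hs
    have h2 := h1 (4 + 5 * m) (by omega)
    rw [show 4 + 5 * m + 1 = p from by omega] at h2
    rw [h2, Function.iterate_add_apply, iter_one_mul hT]
    -- the inverse of `T 1`
    have hr : Pos (s.1 * (1 + s.2) / (1 / 2 + s.2), s.2) := by
      obtain ⟨g1, g2⟩ := hs
      exact ⟨by simp only; positivity, g2⟩
    have h5 := T_one_five hr
    have e1 : T 1 (s.1 * (1 + s.2) / (1 / 2 + s.2), s.2) = T (1 / 2) s := by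
      obtain ⟨g1, g2⟩ := hs
      simp only [T]
      congr 1
      field_simp
    rw [show (5 : ℕ) = 4 + 1 from rfl, Function.iterate_add_apply, Function.iterate_one, e1] at h5
    exact h5
  have hrec : ∀ k : ℕ, orb (halfWord p) (1, 1) (k * p) = ((4 / 3) ^ k, 1) := by
    intro k
    induction k with
    | zero => simp [orb]
    | succ k ih =>
      rw [add_mul, one_mul, orb_add hperiod, ih, hM _ ⟨by simp only; positivity, by norm_num⟩]
      ext
      · simp only; rw [pow_succ]; ring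
      · simp only
  intro C
  obtain ⟨k, hk⟩ := pow_unbounded_of_one_lt C (show (1 : ℝ) < 4 / 3 by norm_num)
  exact ⟨k * p, by rw [hrec]; exact hk⟩

/-- Every period except `2`, `3`, `6` has an unbounded solution for some positive word. -/
lemma bad_of_ne {p : ℕ} (hp : 2 ≤ p) (h2 : p ≠ 2) (h3 : p ≠ 3) (h6 : p ≠ 6) : Bad p := by
  have h5 : p % 5 < 5 := Nat.mod_lt _ (by norm_num)
  have hdiv : 5 * (p / 5) + p % 5 = p := Nat.div_add_mod p 5
  interval_cases hr : p % 5
  · rw [show p = 5 + 5 * (p / 5 - 1) from by omega]; exact bad_five _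
  · rw [show p = 11 + 5 * (p / 5 - 2) from by omega]; exact bad_eleven _
  · rw [show p = 7 + 5 * (p / 5 - 1) from by omega]; exact bad_seven _
  · rw [show p = 8 + 5 * (p / 5 - 1) from by omega]; exact bad_eight _
  · rw [show p = 4 + 5 * (p / 5) from by omega]; exact bad_four _

end Pool.Agent.H24.Lyness
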